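import Pool.Agent.Lib.MP_269429_pr.Lit
import Pool.Agent.Lib.MP_269429_pr.Count
import Pool.Agent.Lib.MP_269429_pr.ClosedA
import Pool.Agent.Lib.MP_269429_pr.MapP
import Pool.Agent.Lib.MP_269429_pr.Prob

/-!
# Uniform random squarings do not converge to the squaring of a random 3-connected map

`SqL n` is the set of normalised squarings with exactly `n` squares, `avg C F` the expectation of
`F` for the uniform distribution on `C`, and `(G ω).squaring` the squaring of the rooted map
`G ω`.
-/

namespace Pool.Agent.Results.MP_269429_pr.NoHausdorffLimit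

open Filter Topology TopologicalSpace MeasureTheory Pool.Agent.MP269

/-- There are finitely many normalised squarings with exactly `n` squares. Let `G ω` be a random
rooted map which almost surely is 3-connected with 3-connected dual, and let `S` be a random
compact set which almost surely is the squaring of `G ω`. Then the uniform random normalised
squaring with `n` squares does not converge to `S` in distribution for the Hausdorff distance.
The same holds for the uniform distributions on every class of squarings which is closed under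
adding a square on top of the rectangle. -/
theorem result :
    (∀ n, (SqL n).Finite) ∧ (∀ n, 1 ≤ n → (SqL n).Nonempty) ∧
    ∀ (Ω : Type) [MeasurableSpace Ω] (μ : Measure Ω) [IsProbabilityMeasure μ] (G : Ω → RMap)
      (S : Ω → NonemptyCompacts (ℝ × ℝ)), @Measurable _ _ _ (borel _) S →
      (∀ᵐ ω ∂μ, (G ω).ThreeConn (G ω).σ ∧ (G ω).ThreeConn (G ω).φ ∧
        (S ω : Set (ℝ × ℝ)) = (G ω).squaring) →
      (∃ F : BoundedContinuousFunction (NonemptyCompacts (ℝ × ℝ)) ℝ,
        ¬ Tendsto (fun n => avg (SqL n) F) atTop (𝓝 (∫ ω, F (S ω) ∂μ))) ∧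
      ∀ C : ℕ → Set (NonemptyCompacts (ℝ × ℝ)), (∀ n, C n ⊆ SqL n) →
        (∀ n, ∀ K ∈ C n, ∀ K' : NonemptyCompacts (ℝ × ℝ),
          IsTopAdd (K : Set (ℝ × ℝ)) (K' : Set (ℝ × ℝ)) → K' ∈ C (n + 1)) →
        (∃ n, (C n).Nonempty) →
        ∃ F : BoundedContinuousFunction (NonemptyCompacts (ℝ × ℝ)) ℝ,
          ¬ Tendsto (fun n => avg (C n) F) atTop (𝓝 (∫ ω, F (S ω) ∂μ)) := by
  have hone : (SqL 1).Nonempty := by
    have hT : IsTiling 1 {((0, 0, 1) : Sqr)} := by
      refine ⟨one_pos, ?_, ?_, ?_⟩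
      · intro q hq
        rw [Finset.mem_singleton.1 hq]
        exact one_pos
      · intro q hq q' hq' hne
        exact absurd ((Finset.mem_singleton.1 hq).trans (Finset.mem_singleton.1 hq').symm) hne
      · rw [Finset.set_biUnion_singleton]
        unfold csq
        simp only [zero_add]
    rw [SqL_eq]
    exact ⟨toNC hT, 1, _, hT, by simp, rfl⟩
  have hnext : ∀ n, (SqL n).Nonempty → (SqL (n + 1)).Nonempty := by
    intro n hn
    rw [SqL_eq] at hn ⊢
    obtain ⟨K, hK⟩ := hn
    obtain ⟨K', hK', -⟩ := exists_topAdd hK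
    exact ⟨K', hK'⟩
  refine ⟨fun n => by rw [SqL_eq]; exact finite_Sq n, fun n hn => ?_, ?_⟩
  · induction n, hn using Nat.le_induction with
    | base => exact hone
    | succ n _ ih => exact hnext n ih
  · intro Ω _ μ _ G S hS hG
    have hgen : ∀ C : ℕ → Set (NonemptyCompacts (ℝ × ℝ)), (∀ n, C n ⊆ SqL n) →
        (∀ n, ∀ K ∈ C n, ∀ K' : NonemptyCompacts (ℝ × ℝ),
          IsTopAdd (K : Set (ℝ × ℝ)) (K' : Set (ℝ × ℝ)) → K' ∈ C (n + 1)) →
        (∃ n, (C n).Nonempty) →
        ∃ F : BoundedContinuousFunction (NonemptyCompacts (ℝ × ℝ)) ℝ,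
          ¬ Tendsto (fun n => avg (C n) F) atTop (𝓝 (∫ ω, F (S ω) ∂μ)) := by
      intro C hC hadd hne
      obtain ⟨n₀, hn₀⟩ := hne
      have hC' : ∀ n, C n ⊆ Sq n := fun n => by rw [← SqL_eq]; exact hC n
      have hfin : ∀ n, (C n).Finite := fun n => (finite_Sq n).subset (hC' n)
      refine no_conv μ hS isClosed_EvA ?_ hfin
        (fun n => (Set.ncard_le_ncard (hC' n) (finite_Sq n)).trans (ncard_Sq_le n)) ?_ hn₀
      · filter_upwards [hG] with ω hω
        exact RMap.notMem_EvA hω.1 hω.2.1 hω.2.2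
      · intro n
        have hex : ∀ K ∈ C n, ∃ K' ∈ C (n + 1) ∩ EvA,
            IsTopAdd (K : Set (ℝ × ℝ)) (K' : Set (ℝ × ℝ)) := by
          intro K hK
          obtain ⟨K', -, h2, h3⟩ := exists_topAdd (hC' n hK)
          exact ⟨K', ⟨hadd n K hK K' h2, h3⟩, h2⟩
        choose! f hf1 hf2 using hex
        refine Set.ncard_le_ncard_of_injOn f hf1 ?_ ((hfin (n + 1)).subset Set.inter_subset_left)
        intro K hK K₁ hK₁ he
        have h1 := hf2 K hK
        have h2 := hf2 K₁ hK₁
        rw [← he] at h2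
        exact topAdd_injective (hC' n hK) (hC' n hK₁) h1 h2
    refine ⟨?_, hgen⟩
    refine hgen SqL (fun n => le_rfl) ?_ ⟨1, hone⟩
    intro n K hK K' hK'
    rw [SqL_eq] at hK ⊢
    obtain ⟨w, T, hT, hn, hKT⟩ := hK
    rw [hKT] at hK'
    exact ⟨_, addT w T, hT.addT, by rw [card_addT hT, hn], isTopAdd_eq hT hK'⟩

end Pool.Agent.Results.MP_269429_pr.NoHausdorffLimit
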